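import Pool.Agent.H26.DGDefs
import Pool.Agent.H26.DGMain

set_option autoImplicit false

namespace Pool.Agent.Results.MP_91e6fa_gt.PPoints

open Pool.Agent.H26.DG

theorem result : ∃ (X : Type) (_ : TopologicalSpace X),
    (∀ p : Ultrafilter ℕ, (p : Filter ℕ) ≤ Filter.cofinite → Delta p X) ∧
    ∀ q : Ultrafilter ℕ, (q : Filter ℕ) ≤ Filter.cofinite → PPoint q → ¬ Gamma q X :=
  ⟨Y, inferInstance, fun p hp => delta p hp, fun q _ hq => not_gamma q hq⟩

end Pool.Agent.Results.MP_91e6fa_gt.PPoints
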